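import Pool.Agent.H23.CrownSum

namespace Pool.Agent.Results.MP_a14af5_co.Negative

open Pool.Agent.H23.OrdPoly Finset Polynomial

/-- Faces of the `n`-gon: the empty face, the vertices, the edges and the whole polygon. -/
inductive Face (n : ℕ)
  | empty
  | vertex (i : Fin n)
  | edge (j : Fin n)
  | whole
  deriving DecidableEq, Fintype

/-- Inclusion of faces; edge `j` has the endpoints `j` and `j + 1` modulo `n`. -/
def Face.le {n : ℕ} : Face n → Face n → Prop
  | .empty, _ => True
  | _, .whole => True
  | .vertex i, .vertex j => i = j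
  | .edge i, .edge j => i = j
  | .vertex i, .edge j => i.val = j.val ∨ i.val = (j.val + 1) % n
  | _, _ => False

/-- The order polynomial value: number of order-preserving maps to an `m`-element chain. -/
noncomputable def omega (n m : ℕ) : ℕ :=
  Nat.card {f : Face n → Fin m // ∀ a b, Face.le a b → f a ≤ f b}

def Z (m : ℕ) : Finset (Σ _ : ℕ, Σ _ : ℕ, Σ _ : Fin 13 → ℕ, Fin 13 → ℕ) :=
  (range m).sigma fun hi => (range (hi + 1)).sigma fun d =>
    (Fintype.piFinset fun _ => range (d + 1)).sigma fun u =>
      Fintype.piFinset fun i => range (M (u i) (u (i + 1)))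

lemma om_Z (m : ℕ) : om (Face.le (n := 13)) m = (Z m).card := by
  have nx : ∀ j : Fin 13, (j + 1).val = (j.val + 1) % 13 := by decide
  refine card_nbij (fun f => ⟨f .whole, f .whole - f .empty, fun i => f .whole - f (.vertex i),
    fun i => f .whole - f (.edge i)⟩) ?_ ?_ ?_
  · intro f hf
    simp only [coe_filter, mem_univ, true_and, Set.mem_setOf_eq, Fin.le_def] at hf
    simp only [Z, mem_coe, mem_sigma, mem_range, Fintype.mem_piFinset, M]
    refine ⟨(f _).2, by omega, fun i => ?_, fun i => ?_⟩
    · have := hf .empty (.vertex i) trivial; omega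
    · have := hf (.vertex i) (.edge i) (Or.inl rfl)
      have := hf (.vertex (i + 1)) (.edge i) (Or.inr (nx i))
      omega
  · intro f hf g hg e
    simp only [coe_filter, mem_univ, true_and, Set.mem_setOf_eq, Fin.le_def] at hf hg
    simp only [Sigma.mk.injEq, heq_eq_eq] at e
    obtain ⟨e1, e2, e3, e4⟩ := e
    funext a
    have h1 := hf a .whole (by cases a <;> trivial)
    have h2 := hg a .whole (by cases a <;> trivial)
    apply Fin.ext
    cases a with
    | empty => omega
    | vertex i => have := congrFun e3 i; omega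
    | edge i => have := congrFun e4 i; omega
    | whole => exact e1
  · rintro ⟨hi, d, u, v⟩ hz
    simp only [Z, mem_coe, mem_sigma, mem_range, Fintype.mem_piFinset, M] at hz
    obtain ⟨h1, h2, h3, h4⟩ := hz
    refine ⟨fun a => match a with
      | .empty => ⟨hi - d, by omega⟩
      | .vertex i => ⟨hi - u i, by omega⟩
      | .edge i => ⟨hi - v i, by omega⟩
      | .whole => ⟨hi, h1⟩, ?_, ?_⟩
    · simp only [coe_filter, mem_univ, true_and, Set.mem_setOf_eq, Fin.le_def]
      rintro (_ | i | i | _) (_ | j | j | _) h <;> simp only [Face.le] at h ⊢ <;> try omega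
      · have := h3 j; omega
      · have := h3 j; have := h4 j; omega
      · subst h; rfl
      · have := h4 j
        rcases h with h | h
        · obtain rfl : i = j := Fin.ext h
          omega
        · obtain rfl : i = j + 1 := Fin.ext (h.trans (nx j).symm)
          omega
      · subst h; rfl
    · simp only [Sigma.mk.injEq, heq_eq_eq, true_and]
      refine ⟨by omega, funext fun i => ?_, funext fun i => ?_⟩
      · have := h3 i; omega
      · have := h3 i; have := h4 i; omega

def O (m : ℕ) : ℕ := ∑ hi ∈ range m, ∑ d ∈ range (hi + 1), vals.getD d 0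

lemma om_val (j : ℕ) (hj : j < 29) : om (Face.le (n := 13)) (j + 1) = O (j + 1) := by
  rw [om_Z, Z, card_sigma, O]
  refine sum_congr rfl fun hi h1 => ?_
  rw [card_sigma]
  refine sum_congr rfl fun d h2 => ?_
  simp only [mem_range] at h1 h2
  simp only [card_sigma, Fintype.card_piFinset, card_range]
  rw [cyc_sum, ← T_eq, ← T_vals]
  simp [List.getD_eq_getElem?_getD, show d < 29 by omega]

def cf (j : ℕ) : ℚ :=
  if j = 0 then -∑ s ∈ range 28, 1 / ((s : ℚ) + 1) else (-1) ^ (j + 1) * (Nat.choose 28 j : ℚ) / j

theorem result : ∃ n : ℕ, 3 ≤ n ∧ ∃ P : ℚ[X],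
    (∀ t : ℕ, P.eval (t : ℚ) = omega n (t + 1)) ∧ ∃ k, P.coeff k < 0 := by
  obtain ⟨P, hd, hP⟩ := exists_poly (Face.le (n := 13))
  refine ⟨13, by norm_num, P, fun t => ?_, 1, ?_⟩
  · rw [hP, omega, om, Nat.subtype_card]
    simp
  · rw [coeff_eq 28 1 cf (by decide +kernel) (by norm_num) P hd,
      sum_congr rfl fun j hj => by rw [hP, om_val j (mem_range.1 hj)]]
    decide +kernel

end Pool.Agent.Results.MP_a14af5_co.Negative
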